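import Mathlib
import Pool.Agent.Lib.Saus.Main

/-!
# The sausage radius of the unit ball in large dimensions

For all large `d`, every `0 < ρ ≤ 2 ^ 0.599` and every finite packing `x_1 + B^d, ..., x_n + B^d`
of unit balls in `ℝ^d`, the volume of `conv {x_1, ..., x_n} + ρ B^d` is at least that of the
sausage with `n` balls. So the sausage radius `ρ_s(B^d)` is at least `2 ^ 0.599`.
-/

set_option autoImplicit false

namespace Pool.Agent.Results.MP_dcaa2d_co.SausageRadius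

open MeasureTheory Metric Set Filter Topology
open scoped Pointwise

/-- Volume of the unit ball of `ℝ^m`. -/
noncomputable def kappa (m : ℕ) : ℝ :=
  (volume (closedBall (0 : EuclideanSpace ℝ (Fin m)) 1)).toReal

/-- The unit balls with centres in `X` form a packing: distinct centres have distance at least
`2`. -/
def IsPacking {d : ℕ} (X : Finset (EuclideanSpace ℝ (Fin d))) : Prop :=
  ∀ x ∈ X, ∀ y ∈ X, x ≠ y → 2 ≤ dist x y

/-- The volume `V(C + ρ B^d)`, where `C` is the convex hull of `X`. -/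
noncomputable def parVol {d : ℕ} (X : Finset (EuclideanSpace ℝ (Fin d))) (ρ : ℝ) : ℝ :=
  (volume (convexHull ℝ (X : Set (EuclideanSpace ℝ (Fin d)))
    + closedBall (0 : EuclideanSpace ℝ (Fin d)) ρ)).toReal

/-- `Δ_n(ρ)`: the infimum of `V(C + ρ B^d) / n` over all packings of `n` unit balls in `ℝ^d`. -/
noncomputable def DeltaN (d : ℕ) (ρ : ℝ) (n : ℕ) : ℝ :=
  sInf {v : ℝ | ∃ X : Finset (EuclideanSpace ℝ (Fin d)), X.card = n ∧ IsPacking X ∧
    v = parVol X ρ / n}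

/-- The set of all `ρ > 0` with `Δ(B^d, ρ) = lim Δ_n(ρ) = 2 κ_(d-1) ρ^(d-1)`. -/
def sausageSet (d : ℕ) : Set ℝ :=
  {ρ : ℝ | 0 < ρ ∧ Tendsto (fun n : ℕ => DeltaN d ρ n) atTop
    (𝓝 (2 * kappa (d - 1) * ρ ^ (d - 1)))}

/-- The sausage radius `ρ_s(B^d)`. -/
noncomputable def sausageRadius (d : ℕ) : ℝ := sSup (sausageSet d)

/-- **Main result.** There is `d₀` such that for all `d ≥ d₀`: for `0 < ρ ≤ 2 ^ 0.599` and all
`n ≥ 1` the sausage of `n` unit balls is optimal, and the sausage radius is at least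
`2 ^ 0.599`. -/
theorem result : ∃ d₀ : ℕ, ∀ d : ℕ, d₀ ≤ d →
    (∀ ρ : ℝ, 0 < ρ → ρ ≤ (2 : ℝ) ^ (0.599 : ℝ) →
      (∀ X : Finset (EuclideanSpace ℝ (Fin d)), X.Nonempty → IsPacking X →
        2 * ((X.card : ℝ) - 1) * kappa (d - 1) * ρ ^ (d - 1) + kappa d * ρ ^ d ≤ parVol X ρ) ∧
      (∀ n : ℕ, 1 ≤ n → DeltaN d ρ n =
        (2 * ((n : ℝ) - 1) * kappa (d - 1) * ρ ^ (d - 1) + kappa d * ρ ^ d) / n) ∧
      ρ ∈ sausageSet d) ∧
    BddAbove (sausageSet d) ∧ (2 : ℝ) ^ (0.599 : ℝ) ≤ sausageRadius d := by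
  obtain ⟨d₀, h⟩ := Pool.Agent.Saus.main_ineq
  refine ⟨max d₀ 2, fun d hd => ?_⟩
  have hd0 : d₀ ≤ d := le_of_max_le_left hd
  have hd2 : 2 ≤ d := le_of_max_le_right hd
  have hbdd : BddAbove (sausageSet d) := Pool.Agent.Saus.sausage_bdd d hd2
  have hmain : ∀ ρ : ℝ, 0 < ρ → ρ ≤ (2 : ℝ) ^ (0.599 : ℝ) →
      (∀ X : Finset (EuclideanSpace ℝ (Fin d)), X.Nonempty → IsPacking X →
        2 * ((X.card : ℝ) - 1) * kappa (d - 1) * ρ ^ (d - 1) + kappa d * ρ ^ d ≤ parVol X ρ) ∧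
      (∀ n : ℕ, 1 ≤ n → DeltaN d ρ n =
        (2 * ((n : ℝ) - 1) * kappa (d - 1) * ρ ^ (d - 1) + kappa d * ρ ^ d) / n) ∧
      ρ ∈ sausageSet d := by
    intro ρ hρ hρ2
    have h1 := h d hd0 ρ hρ hρ2
    have h2 := Pool.Agent.Saus.deltaN_eq hd2 hρ h1
    exact ⟨h1, h2.1, hρ, h2.2⟩
  have hpos : (0 : ℝ) < (2 : ℝ) ^ (0.599 : ℝ) := Real.rpow_pos_of_pos (by norm_num) _
  exact ⟨hmain, hbdd, le_csSup hbdd (hmain _ hpos le_rfl).2.2⟩

end Pool.Agent.Results.MP_dcaa2d_co.SausageRadius
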